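import Pool.Agent.Helper31.IPN.T2Scalar
import Pool.Agent.Helper82.IP.T2B
import Pool.Agent.Helper82.IP.NDeadOf
import Pool.Agent.Helper36.IP.E23

/-!
TH-P, N branch, state (10)/(11) is impossible.
-/

namespace Pool.Agent.Helper31.IPN

open Pool.Agent.Helper54.IP Pool.Agent.Helper82.IP

variable {F : Type*} [Field F] {m : ℕ}

/-- the linear relation of type 1 on the dual strip at step 2. -/
theorem t2_add (g : GForm F m) (hm : 3 ≤ m) (hD : g.G 1 1 ≠ g.H 1 1)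
    (hk' : g.swap.kap 1 2 ≠ 0) (hk3' : g.swap.kap 1 3 ≠ 0)
    (h3' : g.t 3 * g.s 1 = g.t 1 * g.s 2) {X Y : F} (hX : (1 - g.lam 0) = (g.s 1 - 1) * X)
    (hY : g.s 1 * g.mu 0 = (g.s 1 - 1) * Y) :
    g.t 3 * X * (g.t 2 - 1) + g.s 1 * (g.t 3 - 1) * Y - (g.s 1 + 1) * g.t 3 =
      g.s 2 * (g.t 2 * X * (g.t 3 - 1) + g.s 1 * (g.t 2 - 1) * Y - (g.s 1 + 1) * g.t 2) := by
  rcases n_step3 g.swap hm hD hk' hk3' with h | ⟨h, -⟩
  · exfalso
    simp only [GForm.swap_s, GForm.swap_t] at h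
    have h12 := g.t_inj 1 2 (by omega) (by omega)
    apply h12
    apply mul_right_cancel₀ (g.s_ne 2 (by omega))
    linear_combination -h - h3'
  · have := ns_add (g := g.swap) hm (X := X) (Y := Y) hX hY h
    simpa only [GForm.swap_s, GForm.swap_t] using this

/-- state (10)/(11), any corner with `3 ≤ m`: only branch B remains. -/
theorem n_1011_or (g : GForm F m) (hm : 3 ≤ m) (hD : g.G 1 1 ≠ g.H 1 1) (h2 : g.t 2 ≠ g.s 2)
    (hn1 : (g.s 2 * g.t 1 - g.t 2) * ((1 - g.lam' 0) - g.t 1 * g.mu' 0 + g.t 1 - 1) =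
        (g.s 2 - 1) * (g.t 1 * g.t 2 * (1 - g.lam' 0) - g.t 1 * g.mu' 0))
    (hn2 : (g.t 2 * g.s 1 - g.s 2) * ((1 - g.lam' 0) - g.t 1 * g.mu' 0 + g.t 1 - 1) =
        (g.t 2 - 1) * (g.s 1 * g.s 2 * (1 - g.lam' 0) - g.t 1 * g.mu' 0))
    (hk : g.kap 1 2 ≠ 0) (hk' : g.swap.kap 1 2 ≠ 0) (hk3 : g.kap 1 3 ≠ 0)
    (hk3' : g.swap.kap 1 3 ≠ 0) (h3 : g.s 3 * g.t 1 = g.s 2 * g.t 2)
    (h3' : g.t 3 * g.s 1 = g.t 1 * g.s 2) :
    g.t 2 = -g.t 1 ∧ g.s 1 = -1 := by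
  obtain ⟨X, Y, hX, hY, hX', hY'⟩ := xy_exists g (by omega)
  have hE := Pool.Agent.Helper36.IP.e23 g (by omega) hD hn1 hk hk3 (by linear_combination h3)
  have hL := t2_add g (by omega) hD hk' hk3' h3' hX' hY'
  have hl2 := lam2_eq (g := g) (by omega) hX hY
  have hm2 := mu2_eq (g := g) (by omega) hX hY
  have hl2' := lam2_eq (g := g.swap) (by omega) (X := X) (Y := Y) hX' hY'
  have hm2' := mu2_eq (g := g.swap) (by omega) (X := X) (Y := Y) hX' hY'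
  have hK := kap2_eq (g := g) (by omega) hX hY
  have hK' := kap2_eq (g := g.swap) (by omega) (X := X) (Y := Y) hX' hY'
  have hdg := Pool.Agent.Helper14.IP.dg2 g (by omega)
  have hdh := Pool.Agent.Helper14.IP.dh2 g (by omega)
  simp only [GForm.swap_s, GForm.swap_t, GForm.swap_lam, GForm.swap_mu] at hl2' hm2' hK'
  have ha := g.t_ne 1 (by omega)
  have hb := g.s_ne 1 (by omega)
  have hc := g.t_ne 2 (by omega)
  have he := g.s_ne 2 (by omega)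
  have ha1 := t_sub_one g (k := 1) (by omega) (by omega)
  have hb1 := s_sub_one g (k := 1) (by omega) (by omega)
  have hc1 := t_sub_one g (k := 2) (by omega) (by omega)
  have he1 := s_sub_one g (k := 2) (by omega) (by omega)
  have hca : g.t 2 - g.t 1 ≠ 0 := sub_ne_zero.2 (g.t_inj 1 2 (by omega) (by omega)).symm
  have heb : g.s 2 - g.s 1 ≠ 0 := sub_ne_zero.2 (g.s_inj 1 2 (by omega) (by omega)).symm
  have hce : g.t 2 - g.s 2 ≠ 0 := sub_ne_zero.2 h2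
  have hT2 : g.t 3 - g.t 2 ≠ 0 := sub_ne_zero.2 (g.t_inj 2 3 (by omega) (by omega)).symm
  have hT0 := t_sub_one g (k := 3) (by omega) (by omega)
  have hS1 : g.s 3 - g.s 1 ≠ 0 := sub_ne_zero.2 (g.s_inj 1 3 (by omega) (by omega)).symm
  have hS0 := s_sub_one g (k := 3) (by omega) (by omega)
  have hT := g.t_ne 3 (by omega)
  have hS := g.s_ne 3 (by omega)
  have hx := g.lam'_ne 0 (by omega)
  have hXne : X ≠ 0 := by
    rintro rfl
    apply hx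
    linear_combination -hX
  have hl2ne : 1 - g.lam 2 ≠ 0 := sub_ne_zero.2 (g.lam_ne 2 (by omega)).symm
  have hK2 : (g.s 2 - 1) * (g.s 2 * X + Y) - g.s 2 ≠ 0 := by
    intro h
    rw [h, mul_zero] at hK
    exact hk ((mul_eq_zero.1 hK).resolve_left he)
  have hK2' : (g.t 2 - 1) * (g.t 2 * X + Y) - g.t 2 ≠ 0 := by
    intro h
    rw [h, mul_zero] at hK'
    exact hk' ((mul_eq_zero.1 hK').resolve_left hc)
  have hkap3 : g.s 3 * g.kap 1 3 = g.t 1 * (g.t 1 - 1) *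
      ((g.s 3 - 1) * (g.s 3 * X + g.t 1 * Y) - (g.t 1 + 1) * g.s 3) := by
    have h1 := G1k (g := g) (by omega) hX (k := 3) (by omega)
    have h2 := H1k (g := g) (by omega) hY (k := 3) (by omega)
    rw [GForm.kap]
    linear_combination g.t 1 * g.s 3 * h1 - g.t 1 ^ 2 * h2
  -- linear relations
  have e1 : X * (g.s 1 * g.t 2 * (g.s 2 - 1) - g.s 2 * (g.s 1 - 1)) +
      Y * (g.t 2 * (g.s 1 - 1) - (g.s 2 - 1)) = g.s 1 * g.t 2 - g.s 2 := by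
    apply mul_left_cancel₀ ha1
    linear_combination -hn2 - (g.s 1 * g.t 2 * (g.s 2 - 1) - g.s 2 * (g.s 1 - 1)) * hX
      - (g.t 2 * (g.s 1 - 1) - (g.s 2 - 1)) * hY
  have e2 : X * (g.t 1 * g.s 2 * (g.t 2 - 1) - g.t 2 * (g.t 1 - 1)) +
      Y * (g.s 2 * (g.t 1 - 1) - (g.t 2 - 1)) = g.t 1 * g.s 2 - g.t 2 := by
    apply mul_left_cancel₀ ha1
    linear_combination -hn1 - (g.t 1 * g.s 2 * (g.t 2 - 1) - g.t 2 * (g.t 1 - 1)) * hX
      - (g.s 2 * (g.t 1 - 1) - (g.t 2 - 1)) * hY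
  have e3 : g.t 2 * g.s 2 * (1 + X * (g.s 1 * (g.t 2 - 1) - (g.t 1 - 1))) =
      g.t 1 ^ 2 * g.s 1 * g.t 2
        - Y * g.t 1 * (g.t 1 * (1 - g.t 2) + g.s 1 * g.t 2 * (g.t 1 - 1)) := by
    apply mul_left_cancel₀ ha1
    linear_combination hE - (g.t 2 * g.s 2 * (g.s 1 * (g.t 2 - 1) - (g.t 1 - 1))) * hX
      - (g.t 1 * (g.t 1 * (1 - g.t 2) + g.s 1 * g.t 2 * (g.t 1 - 1))) * hY
  rcases t2_scalar ha hb hc he hb1 hc1 he1 hca heb hce hT2 hT0 hS hT hXne hl2ne h3'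
      (by linear_combination h3) e1 e2 e3 hK2 hK2' hL hl2 hm2 hl2' hm2' hdg hdh with h | h
  · exact h
  · exfalso
    apply hk3
    rw [h, mul_zero] at hkap3
    exact (mul_eq_zero.1 hkap3).resolve_left hS

theorem n_1011 (g : GForm F m) (hm : 5 ≤ m) (hD : g.G 1 1 ≠ g.H 1 1) (h2 : g.t 2 ≠ g.s 2)
    (hn1 : (g.s 2 * g.t 1 - g.t 2) * ((1 - g.lam' 0) - g.t 1 * g.mu' 0 + g.t 1 - 1) =
        (g.s 2 - 1) * (g.t 1 * g.t 2 * (1 - g.lam' 0) - g.t 1 * g.mu' 0))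
    (hn2 : (g.t 2 * g.s 1 - g.s 2) * ((1 - g.lam' 0) - g.t 1 * g.mu' 0 + g.t 1 - 1) =
        (g.t 2 - 1) * (g.s 1 * g.s 2 * (1 - g.lam' 0) - g.t 1 * g.mu' 0))
    (hk : g.kap 1 2 ≠ 0) (hk' : g.swap.kap 1 2 ≠ 0) (hk3 : g.kap 1 3 ≠ 0)
    (hk3' : g.swap.kap 1 3 ≠ 0) (h3 : g.s 3 * g.t 1 = g.s 2 * g.t 2)
    (h3' : g.t 3 * g.s 1 = g.t 1 * g.s 2) : False := by
  have h := n_1011_or g (by omega) hD h2 hn1 hn2 hk hk' hk3 hk3' h3 h3'
  exact Pool.Agent.Helper82.IP.n_1011_B g (by omega) hD hn1 hn2 hk hk' hk3 hk3' h3 h3' h.1 h.2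

end Pool.Agent.Helper31.IPN
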