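import Pool.Agent.Helper31.IPN.T2Cert

/-!
TH-P, N branch, state (10)/(11): scalar chain from the linear relations to `kap_1^(3) = 0`.
-/

namespace Pool.Agent.Helper31.IPN

variable {F : Type*} [Field F]

section lin

variable {a b c e X Y : F}

/-- the surface `II`. -/
theorem t2_II (hc1 : c - 1 ≠ 0) (hd : a * e - b * c ≠ 0)
    (h1 : X * (b * c * (e - 1) - e * (b - 1)) + Y * (c * (b - 1) - (e - 1)) = b * c - e)
    (h2 : X * (a * e * (c - 1) - c * (a - 1)) + Y * (e * (a - 1) - (c - 1)) = a * e - c)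
    (h3 : c * e * (1 + X * (b * (c - 1) - (a - 1))) =
      a ^ 2 * b * c - Y * a * (a * (1 - c) + b * c * (a - 1))) : pII a b c e = 0 := by
  apply mul_left_cancel₀ (mul_ne_zero hc1 hd)
  rw [pII, mul_zero]
  linear_combination
    (-((a * e * (c - 1) - c * (a - 1)) * (a * (a * (1 - c) + b * c * (a - 1)))
      - (c * e * (b * (c - 1) - (a - 1))) * (e * (a - 1) - (c - 1)))) * h1
    - ((c * e * (b * (c - 1) - (a - 1))) * (c * (b - 1) - (e - 1))
      - (b * c * (e - 1) - e * (b - 1)) * (a * (a * (1 - c) + b * c * (a - 1)))) * h2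
    - ((b * c * (e - 1) - e * (b - 1)) * (e * (a - 1) - (c - 1))
      - (a * e * (c - 1) - c * (a - 1)) * (c * (b - 1) - (e - 1))) * h3

/-- `X, Y` on the surface, `c ≠ -a`. -/
theorem t2_param (ha : a ≠ 0) (he1 : e - 1 ≠ 0) (hca : c + a ≠ 0)
    (hd : a * e - b * c ≠ 0)
    (h1 : X * (b * c * (e - 1) - e * (b - 1)) + Y * (c * (b - 1) - (e - 1)) = b * c - e)
    (h2 : X * (a * e * (c - 1) - c * (a - 1)) + Y * (e * (a - 1) - (c - 1)) = a * e - c)
    (h3 : c * e * (1 + X * (b * (c - 1) - (a - 1))) =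
      a ^ 2 * b * c - Y * a * (a * (1 - c) + b * c * (a - 1))) (hII : pII a b c e = 0) :
    X * pD a b c e = px a b c e ∧ Y * pD a b c e = c * e * py a b c e := by
  by_cases hi : -(a * c * e) + a * c + a * e - c * e - e ^ 2 + e = 0
  · have hj : a ^ 3 * c * e - a ^ 3 * c - a ^ 3 * e + a ^ 2 * c - a * c * e ^ 2 + c ^ 2 * e
        + c * e ^ 2 - c * e ≠ 0 := by
      intro hj
      have : (e - 1) * a * (c + a) * (a * e - b * c) = 0 := by
        rw [pII] at hII
        linear_combination (a ^ 2 * b - a ^ 2 * c - a * b * c + b * c) * hi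
          + (-b * e + 2 * b - c - e + 1) * hj + (a * e - a - c - e + 1) * hII
      exact mul_ne_zero (mul_ne_zero (mul_ne_zero he1 ha) hca) hd this
    rw [pII] at hII
    constructor
    · apply mul_left_cancel₀ hj
      rw [pD, px]
      linear_combination
        (e * (c + a) * (a * (a * (1 - c) + b * c * (a - 1)))) * h2
        - (e * (c + a) * (e * (a - 1) - (c - 1))) * h3
        - (X * (-a ^ 2 * c * e + a ^ 2 * c + a ^ 2 * e + a * c * e ^ 2 - a * c - c ^ 2 * e
          - c * e ^ 2 + c * e) - (-a ^ 2 * c + a * c)) * hII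
    · apply mul_left_cancel₀ hj
      rw [pD, py]
      linear_combination
        (e * (c + a) * (a * e * (c - 1) - c * (a - 1))) * h3
        - (e * (c + a) * (c * e * (b * (c - 1) - (a - 1)))) * h2
        - (Y * (-a ^ 2 * c * e + a ^ 2 * c + a ^ 2 * e + a * c * e ^ 2 - a * c - c ^ 2 * e
          - c * e ^ 2 + c * e) - (a * c * e ^ 2 - c * e ^ 2)) * hII
  · rw [pII] at hII
    constructor
    · apply mul_left_cancel₀ hi
      rw [pD, px]
      linear_combination
        (e * (c + a) * (e * (a - 1) - (c - 1))) * h1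
        - (e * (c + a) * (c * (b - 1) - (e - 1))) * h2
        - (X * (c * e - c + e ^ 2 - e) - c) * hII
    · apply mul_left_cancel₀ hi
      rw [pD, py]
      linear_combination
        (e * (c + a) * (b * c * (e - 1) - e * (b - 1))) * h2
        - (e * (c + a) * (a * e * (c - 1) - c * (a - 1))) * h1
        - (Y * (c * e - c + e ^ 2 - e) - e ^ 2) * hII

end lin

section surf

variable {a b c e : F}

theorem t2_K2 (a b c e : F) :
    (e - 1) * (px a b c e + c * py a b c e) - pD a b c e = (e - b) * (c - e) * (c + a) := by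
  rw [px, py, pD]
  ring

theorem t2_K2' (a b c e : F) :
    (c - 1) * (px a b c e + e * py a b c e) - pD a b c e = (c - e) * (b + 1) * (a * c - e) := by
  rw [px, py, pD]
  ring

/-- `V` on the surface. -/
theorem t2_VA (he : e ≠ 0) (he1 : e - 1 ≠ 0) (hc : c ≠ 0) (hb1 : b + 1 ≠ 0)
    (hII : pII a b c e = 0)
    (hV : px a b c e * (a * c - a - a * e * c + b * c)
      + b * c * py a b c e * (a * e - b - e * b * c + e * b)
      + (b + 1) * (b * c - a) * pD a b c e = 0) : pVA a b c e = 0 := by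
  apply mul_left_cancel₀ (mul_ne_zero (mul_ne_zero hc he1) hb1)
  rw [mul_zero]
  rw [pII] at hII
  rw [px, py, pD] at hV
  rw [pVA]
  linear_combination (e * (b * c - a) * (c - b) - (e - 1) * c * (a * e - b ^ 2)) * hII
    - (e * (c - a)) * hV

/-- `1 - lam_2` on `V`. -/
theorem t2_n1 (hII : pII a b c e = 0) (hVA : pVA a b c e = 0) :
    (a * e - b) * ((e * c - a) * px a b c e + a ^ 2 * c * py a b c e * (e - 1)
      - a * (a + 1) * pD a b c e) = e * (a - b) * (c ^ 2 - a ^ 2) * pn a b c e := by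
  rw [pII] at hII
  rw [pVA] at hVA
  rw [px, py, pD, pn]
  linear_combination (-a ^ 2 * e + a * b) * hII + (-a - c) * hVA

/-- `mu_2` on `V`. -/
theorem t2_n2 (hII : pII a b c e = 0) (hVA : pVA a b c e = 0) :
    c * (a * e - b) * ((e - 1) * px a b c e + a * py a b c e * (e * c - a)
      - (a + 1) * pD a b c e) = e * (a - b) * (c ^ 2 - a ^ 2) * pm a b c e := by
  rw [pII] at hII
  rw [pVA] at hVA
  rw [px, py, pD, pm]
  linear_combination (-a * c * e + b * c) * hII + (-a - c) * hVA

/-- `1 - lam'_2` on `V`. -/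
theorem t2_n1' (hII : pII a b c e = 0) (hVA : pVA a b c e = 0) :
    (c - a) * (px a b c e * (a * e - b) + b ^ 2 * e * py a b c e * (c - 1)
      - b * (b + 1) * pD a b c e) = (b - a) * (b + 1) * (a * c - e) * (b * c - a * e) := by
  rw [pII] at hII
  rw [pVA] at hVA
  rw [px, py, pD]
  linear_combination (a * e - b * c) * hII + (b + 1) * hVA

/-- the numerator of `kap_1^(3)`. -/
theorem t2_K3 (a b c e : F) :
    (e * c - a) * (px a b c e + a ^ 2 * py a b c e) - a * (a + 1) * pD a b c e =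
      (c - a * b) * pk6 a c e := by
  rw [px, py, pD, pk6]
  ring

/-- the end: `(c - a b) k6 = 0`. -/
theorem t2_end (hII : pII a b c e = 0) (hVA : pVA a b c e = 0)
    (hca : c - a ≠ 0) (he1 : e - 1 ≠ 0) (hc1 : c - 1 ≠ 0) (hb1 : b + 1 ≠ 0)
    (hx : px a b c e ≠ 0)
    (hEG : a ^ 2 * (e - 1) * (e - b) * pn a b c e = b * (c - 1) * (e * c - a) * (e * c - a * b))
    (hEH : c ^ 2 * (e - 1) * (e - b) * pm a b c e =
      a * e * (c - 1) * (e * c - a) * (e * c - a * b)) :
    (c - a * b) * pk6 a c e = 0 := by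
  have h := t2_cert a b c e
  rw [hII, hVA, sub_eq_zero.2 hEG, sub_eq_zero.2 hEH] at h
  have h2 : ((c - a) * (e - 1) * (c - 1) * (b + 1) * px a b c e) *
      ((c - a * b) * pk6 a c e) = 0 := by
    linear_combination h
  exact (mul_eq_zero.1 h2).resolve_left
    (mul_ne_zero (mul_ne_zero (mul_ne_zero (mul_ne_zero hca he1) hc1) hb1) hx)

end surf

section exc

variable {a b e X Y : F}

/-- `c = -a`, `b ≠ -1` is impossible. -/
theorem t2_exc (ha : a ≠ 0) (hb1 : b + 1 ≠ 0) (hb : b - 1 ≠ 0) (ha1 : a + 1 ≠ 0)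
    (heb : e + b ≠ 0) (hK : (e - 1) * (e * X + Y) - e ≠ 0)
    (h1 : X * (b * -a * (e - 1) - e * (b - 1)) + Y * (-a * (b - 1) - (e - 1)) = b * -a - e)
    (h2 : X * (a * e * (-a - 1) - -a * (a - 1)) + Y * (e * (a - 1) - (-a - 1)) = a * e - -a)
    (h3 : -a * e * (1 + X * (b * (-a - 1) - (a - 1))) =
      a ^ 2 * b * -a - Y * a * (a * (1 - -a) + b * -a * (a - 1)))
    (hII : pII a b (-a) e = 0) : False := by
  have hq : e ^ 2 - (a + 1) ^ 2 * e + a ^ 2 = 0 := by
    apply mul_left_cancel₀ (mul_ne_zero hb1 ha)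
    rw [pII] at hII
    linear_combination hII
  have c1 : b ^ 2 + 1 = 0 := by
    have h : (a ^ 3 * (b ^ 2 + 1)) * ((e - 1) * (e * X + Y) - e) = 0 := by
      linear_combination
        (-(X * (a ^ 2 * b ^ 2 - a ^ 2 * b * e - a * b * e + a * e ^ 2))
          + a * ((e - 1) * (e * X + Y) - e)) * hq
        + (a ^ 3 * b - a ^ 3 * e - a ^ 2 * b * e - a ^ 2 * e + a * e ^ 2 - a * e) * h1
        + (-(a * b) + a * e) * h3
    exact (mul_eq_zero.1 ((mul_eq_zero.1 h).resolve_right hK)).resolve_left (pow_ne_zero 3 ha)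
  have c2 : e * (1 + b) = 2 * a + b + 1 := by
    have h : (a * (b * e + e - 2 * a - b - 1)) * ((e - 1) * (e * X + Y) - e) = 0 := by
      linear_combination
        (X * (-(a * b) + a * e - b * e + e ^ 2) - ((e - 1) * (e * X + Y) - e)) * hq
        - (-(a * e) - a + e ^ 2 - e) * h1 - (-(a * b) + a * e) * h2
    have := (mul_eq_zero.1 ((mul_eq_zero.1 h).resolve_right hK)).resolve_left ha
    linear_combination this
  have two : (2 : F) ≠ 0 := by
    have : (1 + b) * (1 - b) ≠ 0 :=
      mul_ne_zero (by rwa [add_comm]) (fun h => hb (by linear_combination -h))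
    intro h
    apply this
    linear_combination h - c1
  have c3 : 2 * a * ((a + 1) * (a * (1 + b) - (1 - b))) = 0 := by
    linear_combination (-(1 + b) ^ 2) * hq
      + (e * (1 + b) + (2 * a + b + 1) - (a + 1) ^ 2 * (1 + b)) * c2
      - 2 * a * c1
  have c4 : a * (1 + b) - (1 - b) = 0 :=
    (mul_eq_zero.1 ((mul_eq_zero.1 c3).resolve_left (mul_ne_zero two ha))).resolve_left ha1
  have c5 : a = -b := by
    apply mul_left_cancel₀ two
    linear_combination (1 - b) * c4 + (a + 1) * c1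
  have c6 : e = -b := by
    apply mul_left_cancel₀ two
    linear_combination (1 - b) * c2 + (e - 1) * c1 + 2 * (1 - b) * c5 + 2 * c1
  apply heb
  rw [c6]
  ring

end exc

end Pool.Agent.Helper31.IPN
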