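import Mathlib

/-!
TH-P, N branch, state (10)/(11): scalar part.  `a = t_1, b = s_1, c = t_2, e = s_2`,
`X = (1 - lam'_0)/(a - 1)`, `Y = a mu'_0/(a - 1)`.
-/

namespace Pool.Agent.Helper31.IPN

variable {F : Type*} [Field F]

/-- the surface of type 0 at rows 1, 2, columns 2, 3 -/
def pII (a b c e : F) : F := c * (1 - e) * (b + 1) * (e - a ^ 2) - e * (c - a) * (c - a * b)

def px (a b c e : F) : F := a * b * c + a * c - a * e - c * e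

def py (a b c e : F) : F := a * b + b * c - b * e - e

def pD (a b c e : F) : F :=
  2 * a * b * c * e - a * b * c - a * b * e - a * c + a * e + b * c ^ 2 * e - b * c * e ^ 2
    - c ^ 2 * e - c * e ^ 2 + 2 * c * e

/-- `V` on the surface (quadratic in `b`) -/
def pVA (a b c e : F) : F :=
  a * e * (-a ^ 2 * c * e + a ^ 2 * e + a * c ^ 2 - a * c * e + c * e ^ 2 - c * e)
    - b ^ 2 * (-a ^ 2 * c * e + a ^ 2 * c - a * c * e + a * e ^ 2 + c ^ 2 * e - c * e)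
    - e * (b - a) * (a * c - e) * (b * c - a)

def pn (a b c e : F) : F := a * b * c + a * c + b * c - b * e - b - e

def pm (a b c e : F) : F := a * b * c + a * c * e + a * c - a * e - b * e - e

def pk6 (a c e : F) : F :=
  a ^ 3 + a ^ 2 * c * e - 2 * a ^ 2 * e + 2 * a * c * e - a * e - c * e ^ 2

def m1 (a b c e : F) : F :=
    a ^ 4 * (-c * e - e) +
    a ^ 3 * (2 * b ^ 2 * e - 2 * b ^ 2 - 4 * b * c ^ 2 - b * c * e + 3 * b * c + 5 * b * e + b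
    + 3 * c ^ 2 * e - c ^ 2 + 2 * c * e + c - e) +
    a ^ 2 * (-b ^ 2 * c ^ 3 - 4 * b ^ 2 * c ^ 2 + 4 * b ^ 2 * c * e + 3 * b ^ 2 * c - 3 * b ^ 2
    * e ^ 2 - b ^ 2 * e + 6 * b * c ^ 2 * e - 4 * b * c ^ 2 - 6 * b * c * e ^ 2 - 4 * b * e ^ 2
    + c ^ 3 * e ^ 2 + 2 * c ^ 3 * e + c ^ 3 - c ^ 2 * e ^ 2 + 2 * c ^ 2 * e - c ^ 2 + 2 * c * e
    ^ 3 - 6 * c * e ^ 2 - c * e - e ^ 2) +
    a * (b ^ 3 * c ^ 3 - b ^ 3 * c ^ 2 - 2 * b ^ 2 * c ^ 3 * e + 6 * b ^ 2 * c ^ 3 - 4 * b ^ 2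
    * c ^ 2 * e - 2 * b ^ 2 * c ^ 2 + b ^ 2 * c * e ^ 3 + 5 * b ^ 2 * c * e - b * c ^ 3 * e ^ 2
    - 7 * b * c ^ 3 * e + 5 * b * c ^ 3 + b * c ^ 2 * e ^ 3 - b * c ^ 2 * e - b * c ^ 2 + 5 * b
    * c * e ^ 3 + b * c * e ^ 2 + 2 * b * c * e + 2 * c ^ 3 * e ^ 2 - 7 * c ^ 3 * e + 3 * c ^ 2
    * e ^ 3 + 2 * c ^ 2 * e) +
    (b ^ 3 * c ^ 3 * e + b ^ 3 * c ^ 3 - 4 * b ^ 3 * c ^ 2 * e - b ^ 3 * c ^ 2 + 3 * b ^ 3 * c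
    * e + 3 * b ^ 2 * c ^ 4 * e - b ^ 2 * c ^ 3 * e + b ^ 2 * c ^ 3 - b ^ 2 * c ^ 2 * e ^ 3 + 6
    * b ^ 2 * c ^ 2 * e ^ 2 - 5 * b ^ 2 * c ^ 2 * e - b ^ 2 * c ^ 2 - 3 * b ^ 2 * c * e ^ 2 - b
    ^ 2 * c * e - b * c ^ 4 * e ^ 2 - b * c ^ 4 * e - 2 * b * c ^ 3 * e ^ 3 + b * c ^ 3 * e ^ 2
    + b * c ^ 3 * e - 4 * b * c ^ 2 * e ^ 3 + 9 * b * c ^ 2 * e ^ 2 - 4 * b * c ^ 2 * e + b * c
    * e ^ 2 - c ^ 3 * e ^ 3 + c ^ 3 * e ^ 2 - 4 * c ^ 2 * e ^ 3 + 4 * c ^ 2 * e ^ 2)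

def m2 (a b c e : F) : F :=
    a ^ 3 * (-2 * b * c * e + 2 * b * c + 2 * b * e - 2 * c * e + 2 * c) +
    a ^ 2 * (2 * b ^ 2 * c * e - 3 * b ^ 2 * c - 2 * b ^ 2 * e + 3 * b ^ 2 - b * c ^ 2 * e + b
    * c ^ 2 - 2 * b * c * e ^ 2 + 4 * b * c * e - 5 * b * c + 2 * b * e ^ 2 - 5 * b * e + 2 * b
    - c ^ 2 * e + c ^ 2 - 2 * c * e ^ 2 + 2 * c * e - 2 * c + 2 * e ^ 2 - e - 1) +
    a * (2 * b ^ 2 * c ^ 2 * e - b ^ 2 * c ^ 2 - 2 * b ^ 2 * c * e + b ^ 2 * c + b * c ^ 3 * e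
    - b * c ^ 3 - 2 * b * c ^ 2 * e ^ 2 + 4 * b * c ^ 2 * e + 5 * b * c * e ^ 2 - 5 * b * c * e
    + c ^ 3 * e - c ^ 3 - 2 * c ^ 2 * e ^ 2 + 4 * c ^ 2 * e + c ^ 2 + 5 * c * e ^ 2 - 3 * c * e
    - c) +
    (-b ^ 2 * c ^ 2 * e ^ 2 + b ^ 2 * c ^ 2 - 2 * b * c ^ 3 * e ^ 2 + 2 * b * c ^ 3 * e - b * c
    ^ 3 - b * c ^ 2 * e ^ 2 + 2 * b * c ^ 2 - 2 * c ^ 3 * e ^ 2 + 2 * c ^ 3 * e - c ^ 3 - 2 * c
    ^ 2 * e + c ^ 2)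

def m3 (a b c e : F) : F :=
    a ^ 3 * (-b * c + b - 2 * c * e - c + 2 * e + 1) +
    a ^ 2 * (-b * c ^ 2 * e + b * c ^ 2 + b * c * e + b * c - 2 * b - 2 * c ^ 2 * e - 2 * c ^ 2
    + c + 2 * e + 1) +
    a * (2 * b ^ 2 * c * e - 3 * b ^ 2 * c - 2 * b ^ 2 * e + 3 * b ^ 2 - b * c ^ 2 * e - 2 * b
    * c ^ 2 + 2 * b * c * e + b * c - 2 * b * e - b + c ^ 2 * e - 2 * c ^ 2 + 2 * c * e ^ 2 + 4
    * c * e) +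
    (-b ^ 2 * c ^ 2 * e + b ^ 2 * c - 3 * b * c ^ 3 + b * c ^ 2 * e ^ 2 - b * c ^ 2 * e - 2 * b
    * c ^ 2 - b * c * e - b * c + c ^ 3 * e + c ^ 3 + 2 * c ^ 2 * e ^ 2 + c ^ 2 * e - c ^ 2 + c
    * e)

def m4 (a b c e : F) : F :=
    a ^ 3 * (b * c * e - b * c + b * e - b + c * e - c - 2 * e ^ 2 - 1) +
    a ^ 2 * (b ^ 2 * c + b ^ 2 * e - 2 * b ^ 2 + 3 * b * c * e + 8 * b * c - b * e ^ 2 + 2 * b
    * e + b - 2 * c * e ^ 2 + 4 * c + e ^ 2 - 3 * e) +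
    a * (-b ^ 2 * c * e + b ^ 2 * c - b ^ 2 * e ^ 2 + b ^ 2 * e + 2 * b * c ^ 2 * e - 2 * b * c
    * e ^ 2 - 3 * b * c * e - 5 * b * e ^ 2 - b * e - 2 * c ^ 2 * e ^ 2 - 3 * c ^ 2 * e - 3 * c
    * e ^ 2 - 2 * c * e) +
    (b ^ 2 * c * e ^ 2 - 2 * b ^ 2 * c * e + 3 * b ^ 2 * e + 2 * b * c ^ 2 * e ^ 2 + 2 * b * c
    ^ 2 * e + 4 * b * c * e ^ 2 - 5 * b * c * e - b * e + c ^ 2 * e ^ 2 + 4 * c ^ 2 * e + 4 * c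
    * e ^ 2 - 4 * c * e)

/-- the final certificate. -/
theorem t2_cert (a b c e : F) :
    pk6 a c e * (c - a) * (e - 1) * (c - 1) * (b + 1) * (c - a * b) * px a b c e =
      m1 a b c e * pII a b c e + m2 a b c e * pVA a b c e +
      m3 a b c e *
        (a ^ 2 * (e - 1) * (e - b) * pn a b c e - b * (c - 1) * (e * c - a) * (e * c - a * b)) +
      m4 a b c e *
        (c ^ 2 * (e - 1) * (e - b) * pm a b c e - a * e * (c - 1) * (e * c - a) * (e * c - a * b)) := by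
  simp only [pII, pVA, pn, pm, pk6, px, m1, m2, m3, m4]
  ring

end Pool.Agent.Helper31.IPN
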