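import Pool.Agent.Helper31.IPN.T2Alg

/-!
TH-P, N branch, state (10)/(11): the scalar theorem.
-/

namespace Pool.Agent.Helper31.IPN

variable {F : Type*} [Field F]

section eg

variable {a b c e T S l m l' m' : F}

theorem t2_T3 (hT : T * b = a * e) :
    b ^ 3 * ((T - 1) * (T - a) * (T - c)) = a * (e - b) * (a * e - b) * (a * e - b * c) := by
  have t1 : b * (T - 1) = a * e - b := by linear_combination hT
  have t2 : b * (T - a) = a * (e - b) := by linear_combination hT
  have t3 : b * (T - c) = a * e - b * c := by linear_combination hT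
  calc b ^ 3 * ((T - 1) * (T - a) * (T - c)) = (b * (T - 1)) * (b * (T - a)) * (b * (T - c)) := by
        ring
    _ = _ := by
        rw [t1, t2, t3]
        ring

theorem t2_S3 (hS : S * a = e * c) :
    a ^ 3 * ((S - 1) * (S - b) * (S - e)) = e * (c - a) * (e * c - a) * (e * c - a * b) := by
  have t1 : a * (S - 1) = e * c - a := by linear_combination hS
  have t2 : a * (S - b) = e * c - a * b := by linear_combination hS
  have t3 : a * (S - e) = e * (c - a) := by linear_combination hS
  calc a ^ 3 * ((S - 1) * (S - b) * (S - e)) = (a * (S - 1)) * (a * (S - b)) * (a * (S - e)) := by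
        ring
    _ = _ := by
        rw [t1, t2, t3]
        ring

theorem t2_EG (he : e ≠ 0) (hab : a - b ≠ 0) (hca : c - a ≠ 0) (hd : a * e - b * c ≠ 0)
    (hT : T * b = a * e) (hS : S * a = e * c)
    (L2 : l * (a ^ 2 * (e - b) * (c - e) * (a * e - b)) = e * (a - b) * (c - a) * pn a b c e)
    (L2' : l' * (b ^ 2 * (c - e) * (c - a)) = (b - a) * (b * c - a * e))
    (hdg : l * ((T - 1) * (T - a) * (T - c)) * ((e - 1) * (e - b)) =
      l' * ((S - 1) * (S - b) * (S - e)) * ((c - 1) * (c - a))) :
    a ^ 2 * (e - 1) * (e - b) * pn a b c e = b * (c - 1) * (e * c - a) * (e * c - a * b) := by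
  have hT3 := t2_T3 (c := c) hT
  have hS3 := t2_S3 (b := b) hS
  apply mul_left_cancel₀ (mul_ne_zero (mul_ne_zero (mul_ne_zero he hab) hca) hd)
  linear_combination (-(a ^ 2 * (e - 1) * (e - b) * (a * e - b * c))) * L2
    - (a ^ 3 * (e - 1) * (e - b) * (c - e) * l) * hT3 + (a ^ 3 * b ^ 3 * (c - e)) * hdg
    + (b ^ 3 * (c - e) * (c - 1) * (c - a) * l') * hS3
    + (b * (c - 1) * (c - a) * e * (e * c - a) * (e * c - a * b)) * L2'

theorem t2_EH (ha : a ≠ 0) (hc : c ≠ 0) (he : e ≠ 0) (hab : a - b ≠ 0) (hca : c - a ≠ 0)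
    (hd : a * e - b * c ≠ 0) (hT : T * b = a * e) (hS : S * a = e * c)
    (M2 : m * (c * (e - b) * (c - e) * (a * e - b)) = e * (a - b) * (c - a) * pm a b c e)
    (M2' : m' * (a * (c - e) * (c - a)) = c * (b - a) * (b * c - a * e))
    (hdh : m * ((T - 1) * (T - a) * (T - c)) * ((e - 1) * (e - b)) * (S ^ 3 * c) =
      m' * ((S - 1) * (S - b) * (S - e)) * ((c - 1) * (c - a)) * (T ^ 3 * e)) :
    c ^ 2 * (e - 1) * (e - b) * pm a b c e =
      a * e * (c - 1) * (e * c - a) * (e * c - a * b) := by
  have hT3 := t2_T3 (c := c) hT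
  have hS3 := t2_S3 (b := b) hS
  have hSc : a ^ 3 * S ^ 3 = e ^ 3 * c ^ 3 := by
    rw [← mul_pow, ← mul_pow, ← hS, mul_comm]
  have hTc : b ^ 3 * T ^ 3 = a ^ 3 * e ^ 3 := by
    rw [← mul_pow, ← mul_pow, ← hT, mul_comm]
  apply mul_left_cancel₀ (mul_ne_zero (mul_ne_zero (mul_ne_zero (mul_ne_zero (mul_ne_zero ha
    (pow_ne_zero 4 he)) (pow_ne_zero 2 hc)) hd) hab) hca)
  linear_combination (-(a * (a * e - b * c) * (e - 1) * (e - b) * e ^ 3 * c ^ 4)) * M2
    - (m * c * (c - e) * (e - 1) * (e - b) * e ^ 3 * c ^ 4) * hT3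
    - (m * c ^ 2 * (c - e) * (e - 1) * (e - b) * b ^ 3 * ((T - 1) * (T - a) * (T - c))) * hSc
    + (c * (c - e) * a ^ 3 * b ^ 3) * hdh
    + (c * (c - e) * e * (c - 1) * (c - a) * m' * b ^ 3 * T ^ 3) * hS3
    + (c * (c - e) * e * (c - 1) * (c - a) * m' *
      (e * (c - a) * (e * c - a) * (e * c - a * b))) * hTc
    + (e * (c - a) * (e * c - a) * (e * c - a * b) * (c - 1) * a ^ 2 * e ^ 4 * c) * M2'

end eg

theorem t2_scalar {a b c e T S X Y l m l' m' : F} (ha : a ≠ 0) (hb : b ≠ 0) (hc : c ≠ 0)
    (he : e ≠ 0) (hb1 : b - 1 ≠ 0) (hc1 : c - 1 ≠ 0) (he1 : e - 1 ≠ 0) (hca : c - a ≠ 0)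
    (heb : e - b ≠ 0) (hce : c - e ≠ 0) (hTc : T - c ≠ 0) (hT1 : T - 1 ≠ 0) (hS0 : S ≠ 0)
    (hT0 : T ≠ 0) (hX : X ≠ 0) (hl : l ≠ 0)
    (hT : T * b = a * e) (hS : S * a = e * c)
    (e1 : X * (b * c * (e - 1) - e * (b - 1)) + Y * (c * (b - 1) - (e - 1)) = b * c - e)
    (e2 : X * (a * e * (c - 1) - c * (a - 1)) + Y * (e * (a - 1) - (c - 1)) = a * e - c)
    (e3 : c * e * (1 + X * (b * (c - 1) - (a - 1))) =
      a ^ 2 * b * c - Y * a * (a * (1 - c) + b * c * (a - 1)))
    (hK : (e - 1) * (e * X + Y) - e ≠ 0) (hK' : (c - 1) * (c * X + Y) - c ≠ 0)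
    (hL : T * X * (c - 1) + b * (T - 1) * Y - (b + 1) * T =
      e * (c * X * (T - 1) + b * (c - 1) * Y - (b + 1) * c))
    (hl2 : l * (a * ((e - 1) * (e * X + Y) - e)) = e * X * (S - 1) + a * (e - 1) * Y - (a + 1) * e)
    (hm2 : m * ((e - 1) * (e * X + Y) - e) * S =
      e * (S * X * (e - 1) + a * (S - 1) * Y - (a + 1) * S))
    (hl2' : l' * (b * ((c - 1) * (c * X + Y) - c)) =
      c * X * (T - 1) + b * (c - 1) * Y - (b + 1) * c)
    (hm2' : m' * ((c - 1) * (c * X + Y) - c) * T =
      c * (T * X * (c - 1) + b * (T - 1) * Y - (b + 1) * T))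
    (hdg : l * ((T - 1) * (T - a) * (T - c)) * ((e - 1) * (e - b)) =
      l' * ((S - 1) * (S - b) * (S - e)) * ((c - 1) * (c - a)))
    (hdh : m * ((T - 1) * (T - a) * (T - c)) * ((e - 1) * (e - b)) * (S ^ 3 * c) =
      m' * ((S - 1) * (S - b) * (S - e)) * ((c - 1) * (c - a)) * (T ^ 3 * e)) :
    (c = -a ∧ b = -1) ∨ (S - 1) * (S * X + a * Y) - (a + 1) * S = 0 := by
  have hd : a * e - b * c ≠ 0 := by
    intro h
    apply mul_ne_zero hb hTc
    linear_combination hT + h
  have hd1 : a * e - b ≠ 0 := by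
    intro h
    apply mul_ne_zero hb hT1
    linear_combination hT + h
  have hII := t2_II hc1 hd e1 e2 e3
  by_cases hcna : c + a = 0
  · have hcc : c = -a := by linear_combination hcna
    by_cases hbb : b + 1 = 0
    · exact Or.inl ⟨hcc, by linear_combination hbb⟩
    · exfalso
      subst hcc
      refine t2_exc ha hbb hb1 ?_ ?_ hK e1 e2 e3 hII
      · intro h
        apply hc1
        linear_combination -h
      · intro h
        apply hd
        linear_combination a * h
  · right
    obtain ⟨hx, hy⟩ := t2_param ha he1 hcna hd e1 e2 e3 hII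
    have hK2 := t2_K2 a b c e
    have hK2' := t2_K2' a b c e
    set D := pD a b c e with hDD
    set x := px a b c e with hxx
    set y := py a b c e with hyy
    have k1 : D * ((e - 1) * (e * X + Y) - e) = e * ((e - b) * (c - e) * (c + a)) := by
      linear_combination (e - 1) * e * hx + (e - 1) * hy + e * hK2
    have k1' : D * ((c - 1) * (c * X + Y) - c) = c * ((c - e) * (b + 1) * (a * c - e)) := by
      linear_combination (c - 1) * c * hx + (c - 1) * hy + c * hK2'
    have hD0 : D ≠ 0 := by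
      intro h
      rw [h, zero_mul] at k1
      exact mul_ne_zero he (mul_ne_zero (mul_ne_zero heb hce) hcna) k1.symm
    have hne' : (c - e) * (b + 1) * (a * c - e) ≠ 0 := by
      intro h
      rw [h, mul_zero] at k1'
      exact mul_ne_zero hD0 hK' k1'
    have hbp : b + 1 ≠ 0 := by
      intro h
      apply hne'
      rw [h]
      ring
    have hac : a * c - e ≠ 0 := by
      intro h
      apply hne'
      rw [h]
      ring
    have hx0 : x ≠ 0 := by
      rw [← hx]
      exact mul_ne_zero hX hD0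
    have hV : x * (a * c - a - a * e * c + b * c) + b * c * y * (a * e - b - e * b * c + e * b)
        + (b + 1) * (b * c - a) * D = 0 := by
      apply mul_left_cancel₀ he
      linear_combination (b * D) * hL + (-(D * X * (c - 1)) - D * b * Y + D * (b + 1)
        + D * e * c * X) * hT
        - (e * (a * c - a - a * e * c + b * c)) * hx - (b * (a * e - b - e * b * c + e * b)) * hy
    have hVA := t2_VA he he1 hc hbp hII (by rw [← hDD, ← hxx, ← hyy]; exact hV)
    have n1 := t2_n1 hII hVA
    have n2 := t2_n2 hII hVA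
    have n1' := t2_n1' hII hVA
    have k3 := t2_K3 a b c e
    rw [← hDD, ← hxx, ← hyy] at n1 n2 n1' k3
    have L2 : l * (a ^ 2 * (e - b) * (c - e) * (a * e - b)) =
        e * (a - b) * (c - a) * pn a b c e := by
      have q : l * (a ^ 2 * ((e - b) * (c - e) * (c + a))) = (e * c - a) * x
          + a ^ 2 * c * y * (e - 1) - a * (a + 1) * D := by
        apply mul_left_cancel₀ he
        linear_combination (a * D) * hl2 - (l * a ^ 2) * k1 + (D * e * X) * hS
          + (e * (e * c - a)) * hx + (a ^ 2 * (e - 1)) * hy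
      apply mul_left_cancel₀ hcna
      linear_combination (a * e - b) * q + n1
    have M2 : m * (c * (e - b) * (c - e) * (a * e - b)) =
        e * (a - b) * (c - a) * pm a b c e := by
      have hm2a : m * ((e - 1) * (e * X + Y) - e) * (e * c) =
          e * (e * c * X * (e - 1) + a * (e * c - a) * Y - (a + 1) * (e * c)) := by
        linear_combination a * hm2 + (-(m * ((e - 1) * (e * X + Y) - e))
          + e * (X * (e - 1) + a * Y - (a + 1))) * hS
      have q : m * ((e - b) * (c - e) * (c + a)) = (e - 1) * x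
          + a * y * (e * c - a) - (a + 1) * D := by
        apply mul_left_cancel₀ (mul_ne_zero he (mul_ne_zero he hc))
        linear_combination D * hm2a - (m * e * c) * k1 + (e * (e * c) * (e - 1)) * hx
          + (e * a * (e * c - a)) * hy
      apply mul_left_cancel₀ hcna
      linear_combination (c * (a * e - b)) * q + n2
    have L2' : l' * (b ^ 2 * (c - e) * (c - a)) = (b - a) * (b * c - a * e) := by
      have q : l' * (b ^ 2 * ((c - e) * (b + 1) * (a * c - e))) = x * (a * e - b)
          + b ^ 2 * e * y * (c - 1) - b * (b + 1) * D := by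
        apply mul_left_cancel₀ hc
        linear_combination (b * D) * hl2' - (l' * b ^ 2) * k1' + (D * c * X) * hT
          + (c * (a * e - b)) * hx + (b ^ 2 * (c - 1)) * hy
      apply mul_left_cancel₀ (mul_ne_zero hbp hac)
      linear_combination (c - a) * q + n1'
    have M2' : m' * (a * (c - e) * (c - a)) = c * (b - a) * (b * c - a * e) := by
      have q1 : m' * T = c * e * b * l' := by
        apply mul_right_cancel₀ hK'
        linear_combination hm2' + c * hL - (c * e) * hl2'
      have q2 : m' * a = b ^ 2 * c * l' := by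
        apply mul_left_cancel₀ he
        linear_combination b * q1 - m' * hT
      linear_combination ((c - e) * (c - a)) * q2 + c * L2'
    have hab : a - b ≠ 0 := by
      intro h
      have h0 : l * (a ^ 2 * (e - b) * (c - e) * (a * e - b)) = 0 := by
        rw [L2, h]
        ring
      exact mul_ne_zero hl (mul_ne_zero (mul_ne_zero (mul_ne_zero (pow_ne_zero 2 ha) heb) hce)
        hd1) h0
    have hEG := t2_EG he hab hca hd hT hS L2 L2' hdg
    have hEH := t2_EH ha hc he hab hca hd hT hS M2 M2' hdh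
    have hend := t2_end hII hVA hca he1 hc1 hbp (by rw [← hxx]; exact hx0) hEG hEH
    apply mul_left_cancel₀ (mul_ne_zero (pow_ne_zero 2 ha) hD0)
    linear_combination (D * (X * (S * a + e * c) - a * X + a ^ 2 * Y - a * (a + 1))) * hS
      + ((e * c - a) * (e * c)) * hx + ((e * c - a) * a ^ 2) * hy + (e * c) * k3
      + (e * c) * hend

end Pool.Agent.Helper31.IPN
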